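import Pool.Agent.W5h83.HG.Maps

/-!
# Products of families
-/

set_option autoImplicit false
set_option maxHeartbeats 400000

open scoped ContDiff Topology NNReal

namespace Pool.Agent.W5h83.HG

open Pool.Agent.W71.EC

variable {n : ℕ} {C : Type*} [TopologicalSpace C] [CompactSpace C]

theorem continuous_comp_family (f g : C(C, SympCt n)) :
    Continuous (fun c => comp (f c) (g c)) := by
  obtain ⟨m, hm⟩ := supp_unif (isCompact_range f.continuous)
  obtain ⟨m', hm'⟩ := supp_unif (isCompact_range g.continuous)
  refine JS.continuous (fun k => ?_) _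
    ((isCompact_closedBall (0 : R2 n) m).union (isCompact_closedBall (0 : R2 n) m'))
    (fun c => comp_supp (supp_mono Set.subset_union_left (hm _ ⟨c, rfl⟩))
      (supp_mono Set.subset_union_right (hm' _ ⟨c, rfl⟩)))
  have h1 : JC k (R2 n) (fun c x => (f c).toEquiv ((g c).toEquiv x)) :=
    JC.comp (JS.of_continuous f.continuous k) (JS.of_continuous g.continuous k)
  exact h1

theorem continuous_inv_family (g : C(C, SympCt n)) : Continuous (fun c => inv (g c)) := by
  obtain ⟨m', hm'⟩ := supp_unif (isCompact_range g.continuous)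
  refine JS.continuous (fun k => ?_) _ (isCompact_closedBall (0 : R2 n) m')
    (fun c => inv_supp (hm' _ ⟨c, rfl⟩))
  exact JC.symm (JS.of_continuous g.continuous)
    (fun c => (g c).smooth_symm.differentiable (by norm_num))
    (cont_symm (isCompact_closedBall (0 : R2 n) m') (fun c => hm' _ ⟨c, rfl⟩)
      (JS.of_continuous g.continuous 0)) k

/-- the pointwise product -/
noncomputable def mulC (f g : C(C, SympCt n)) : C(C, SympCt n) :=
  ⟨fun c => comp (f c) (g c), continuous_comp_family f g⟩

/-- the pointwise inverse -/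
noncomputable def invC (g : C(C, SympCt n)) : C(C, SympCt n) :=
  ⟨fun c => inv (g c), continuous_inv_family g⟩

theorem mulC_apply (f g : C(C, SympCt n)) (c : C) : mulC f g c = comp (f c) (g c) := rfl

theorem invC_apply (g : C(C, SympCt n)) (c : C) : invC g c = inv (g c) := rfl

theorem one_comp (φ : SympCt n) : comp one φ = φ := SympCt.ext' fun _ => rfl

theorem comp_inv_self (φ : SympCt n) : comp φ (inv φ) = one := by
  refine SympCt.ext' fun x => ?_
  change φ.toEquiv (φ.toEquiv.symm x) = x
  rw [Equiv.apply_symm_apply]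

theorem foldr_apply (l : List C(C, SympCt n)) (g : C(C, SympCt n)) (c : C) :
    l.foldr mulC g c = (l.map fun θ => θ c).foldr comp (g c) := by
  induction l with
  | nil => rfl
  | cons θ l ih => rw [List.foldr_cons, List.map_cons, List.foldr_cons, mulC_apply, ih]

/-- **Homotopy classes in terms of products** -/
theorem homotopicRel_iff_prod (A : Set C) (f g : C(C, SympCt n)) :
    f.HomotopicRel g A ↔ ∃ l : List C(C, SympCt n),
      (∀ θ ∈ l, (∀ c ∈ A, θ c = one) ∧ ∀ c, NoNeg (θ c)) ∧
        ∀ c, f c = (l.map fun θ => θ c).foldr comp (g c) := by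
  constructor
  · intro h
    have h1 := (homotopicRel_iff A g f).1 h.symm
    have h2 : ∃ l : List C(C, SympCt n),
        (∀ θ ∈ l, (∀ c ∈ A, θ c = one) ∧ ∀ c, NoNeg (θ c)) ∧ f = l.foldr mulC g := by
      clear h
      induction h1 with
      | refl => exact ⟨[], by simp, rfl⟩
      | tail _ hbc ih =>
        rename_i a b _
        obtain ⟨l, hl, hb⟩ := ih
        refine ⟨mulC b (invC a) :: l, ?_, ?_⟩
        · intro θ hθ
          rcases List.mem_cons.1 hθ with rfl | hθ
          · refine ⟨fun c hc => ?_, fun c => ?_⟩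
            · rw [mulC_apply, invC_apply, hbc.1 c hc, comp_inv_self]
            · rw [mulC_apply, invC_apply]
              exact NoOpp.noNeg (hbc.symm.2 c)
          · exact hl θ hθ
        · rw [List.foldr_cons, ← hb]
          ext1 c
          rw [mulC_apply, mulC_apply, invC_apply, comp_inv_comp]
    obtain ⟨l, hl, rfl⟩ := h2
    exact ⟨l, hl, fun c => foldr_apply l g c⟩
  · rintro ⟨l, hl, hf⟩
    have h2 : f = l.foldr mulC g := by
      ext1 c
      rw [foldr_apply]
      exact hf c
    subst h2
    clear hf
    induction l with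
    | nil => exact ContinuousMap.HomotopicRel.refl _
    | cons θ l ih =>
      rw [List.foldr_cons]
      refine ContinuousMap.HomotopicRel.trans ?_ (ih fun χ hχ => hl χ (List.mem_cons_of_mem _ hχ))
      obtain ⟨h3, h4⟩ := hl θ List.mem_cons_self
      refine Step.homotopicRel ⟨fun c hc => ?_, fun c => ?_⟩
      · rw [mulC_apply, h3 c hc, one_comp]
      · rw [mulC_apply]
        exact (h4 c).noOpp _

/-- **Weak contractibility in terms of products** -/
theorem weaklyContractible_iff (n : ℕ) :
    (∀ k : ℕ, Subsingleton (HomotopyGroup (Fin k) (SympCt n) one)) ↔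
      ∀ (k : ℕ) (f : C(Fin k → unitInterval, SympCt n)),
        (∀ y ∈ Cube.boundary (Fin k), f y = one) →
        ∃ l : List C(Fin k → unitInterval, SympCt n),
          (∀ θ ∈ l, (∀ y ∈ Cube.boundary (Fin k), θ y = one) ∧ ∀ y, NoNeg (θ y)) ∧
            ∀ y, f y = (l.map fun θ => θ y).foldr comp one := by
  refine forall_congr' fun k => ?_
  let o : C(Fin k → unitInterval, SympCt n) := ContinuousMap.const _ one
  constructor
  · intro h f hf
    let a : GenLoop (Fin k) (SympCt n) one := ⟨f, hf⟩
    let b : GenLoop (Fin k) (SympCt n) one := ⟨o, fun _ _ => rfl⟩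
    have h1 : (Quotient.mk _ a : HomotopyGroup (Fin k) (SympCt n) one) = Quotient.mk _ b :=
      h.elim _ _
    have h2 : f.HomotopicRel o (Cube.boundary (Fin k)) := Quotient.exact h1
    exact (homotopicRel_iff_prod _ f o).1 h2
  · intro h
    have h1 : ∀ a : GenLoop (Fin k) (SympCt n) one,
        a.1.HomotopicRel o (Cube.boundary (Fin k)) := fun a =>
      (homotopicRel_iff_prod _ a.1 o).2 (h a.1 a.2)
    refine ⟨fun a b => ?_⟩
    obtain ⟨a, rfl⟩ := Quotient.exists_rep a
    obtain ⟨b, rfl⟩ := Quotient.exists_rep b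
    exact Quotient.sound ((h1 a).trans (h1 b).symm)

end Pool.Agent.W5h83.HG
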