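import Pool.Agent.W5h83.HG.JC
import Pool.Agent.W71.EC.Chain

/-!
# Families of symplectomorphisms
-/

set_option autoImplicit false
set_option maxHeartbeats 400000

open scoped ContDiff Topology NNReal

namespace Pool.Agent.W5h83.HG

open Pool.Agent.W71.EC

section general

variable {P : Type*} [TopologicalSpace P] {E : Type*} [NormedAddCommGroup E] [NormedSpace ℝ E]
  [FiniteDimensional ℝ E]

/-- the inverses of a continuous family of bijections which are the identity outside a compact set -/
theorem cont_symm {e : P → E ≃ E} {K : Set E} (hK : IsCompact K) (h0 : ∀ p x, x ∉ K → e p x = x)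
    (hc : Continuous (Function.uncurry fun p x => e p x)) :
    Continuous (Function.uncurry fun p x => (e p).symm x) := by
  have : ProperSpace E := FiniteDimensional.proper ℝ E
  rw [continuous_iff_continuousAt]
  rintro ⟨p, y⟩
  rw [ContinuousAt, Filter.tendsto_def]
  intro U' hU'
  obtain ⟨U, hUU, hUo, hxU⟩ := mem_nhds_iff.1 hU'
  have hB : IsCompact (K ∪ Metric.closedBall y 1) := hK.union (isCompact_closedBall _ _)
  have hC : IsCompact ((K ∪ Metric.closedBall y 1) \ U) := hB.diff hUo
  have h1 : ∀ᶠ z in 𝓝 (p, y), ∀ x ∈ (K ∪ Metric.closedBall y 1) \ U, e z.1 x ≠ z.2 := by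
    refine hC.eventually_forall_of_forall_eventually fun x hx => ?_
    have h2 : Continuous (fun w : (P × E) × E => (e w.1.1 w.2, w.1.2)) :=
      (hc.comp ((continuous_fst.comp continuous_fst).prodMk continuous_snd)).prodMk
        (continuous_snd.comp continuous_fst)
    have h3 : IsOpen {w : (P × E) × E | e w.1.1 w.2 ≠ w.1.2} :=
      isOpen_ne_fun (hc.comp ((continuous_fst.comp continuous_fst).prodMk continuous_snd))
        (continuous_snd.comp continuous_fst)
    refine h3.mem_nhds ?_
    change e p x ≠ y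
    intro h4
    have h5 : x = (e p).symm y := by rw [← h4, Equiv.symm_apply_apply]
    exact hx.2 (h5 ▸ hxU)
  have h6 : ∀ᶠ z : P × E in 𝓝 (p, y), z.2 ∈ Metric.closedBall y 1 :=
    continuous_snd.continuousAt.eventually (Metric.closedBall_mem_nhds y one_pos)
  filter_upwards [h1, h6] with z hz1 hz2
  change (e z.1).symm z.2 ∈ U'
  apply hUU
  by_contra h7
  refine hz1 ((e z.1).symm z.2) ⟨?_, h7⟩ (Equiv.apply_symm_apply _ _)
  by_cases h8 : (e z.1).symm z.2 ∈ K
  · exact Or.inl h8
  · right
    have h9 := h0 z.1 _ h8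
    rw [Equiv.apply_symm_apply] at h9
    rwa [← h9]

end general

variable {n : ℕ} {P : Type*} [TopologicalSpace P]

/-- jointly smooth families -/
def JS (f : P → SympCt n) : Prop := ∀ k, JC k (R2 n) (fun p x => (f p).toEquiv x)

theorem continuous_deriv (k : ℕ) : Continuous (deriv k : SympCt n → _) := by
  refine continuous_iSup_dom.2 fun C => ?_
  refine continuous_coinduced_dom.2 ?_
  let _ : TopologicalSpace (supportedIn (C : Set (R2 n))) := smoothTopology (C : Set (R2 n))
  exact continuous_iInf_dom (i := k) continuous_induced_dom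

theorem JS.of_continuous {f : P → SympCt n} (hf : Continuous f) : JS f := by
  intro k
  refine JC.ofIter k (fun p => (f p).smooth) fun j => ?_
  have h1 : Continuous (fun p => deriv j (f p)) := (continuous_deriv j).comp hf
  exact (h1.comp continuous_fst).eval continuous_snd

theorem continuous_val (K : Set (R2 n)) (hK : IsCompact K) :
    @Continuous _ _ (smoothTopology K) _ (Subtype.val : supportedIn K → SympCt n) := by
  let C : TopologicalSpace.Compacts (R2 n) := ⟨K, hK⟩
  let _ : TopologicalSpace (supportedIn K) := smoothTopology K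
  rw [continuous_iff_coinduced_le]
  exact le_iSup (fun C : TopologicalSpace.Compacts (R2 n) =>
    TopologicalSpace.coinduced (Subtype.val : supportedIn (C : Set (R2 n)) → SympCt n)
    (smoothTopology (C : Set (R2 n)))) C

theorem JS.continuous {f : P → SympCt n} (hf : JS f) (K : Set (R2 n)) (hK : IsCompact K)
    (hs : ∀ p, f p ∈ supportedIn K) : Continuous f := by
  let _ : TopologicalSpace (supportedIn K) := smoothTopology K
  have h1 : Continuous (fun p => (⟨f p, hs p⟩ : supportedIn K)) := by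
    refine continuous_iInf_rng.2 fun k => ?_
    refine continuous_induced_rng.2 ?_
    refine ContinuousMap.continuous_of_continuous_uncurry _ ?_
    exact JC.iter k hf
  exact (continuous_val K hK).comp h1

/-- the vector field of the midpoint chart -/
theorem exists_X (K : Set (R2 n)) (hK : IsCompact K) (θ : SympCt n)
    (hθ : θ ∈ supportedIn K)
    (hc : ∀ p, ∀ s ∈ Set.Icc (0 : ℝ) 1, ∀ v,
      v + s • RR (0 : R2 n →L[ℝ] R2 n) (fderiv ℝ θ.toEquiv p v - v) = 0 → v = 0) :
    ∃ X : R2 n → R2 n, CD (0 : R2 n →L[ℝ] R2 n) X K ∧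
      ∃ m : R2 n ≃ R2 n, (∀ p, m p = (1 / 2 : ℝ) • (p + θ.toEquiv p)) ∧ ContDiff ℝ ∞ m.symm ∧
        (∀ p, X (m p) = θ.toEquiv p - p) ∧
        (∀ p w, fderiv ℝ X (m p) ((1 / 2 : ℝ) • (w + fderiv ℝ θ.toEquiv p w)) =
          fderiv ℝ θ.toEquiv p w - w) := by
  set S : R2 n →L[ℝ] R2 n := 0 with hSdef
  have hS : InSp S := inSp_zero
  -- the midpoint map
  have hYs : ContDiff ℝ ∞ (fun p => p - θ.toEquiv p) := contDiff_id.sub θ.smooth
  have hYd : ∀ p v, fderiv ℝ (fun p => p - θ.toEquiv p) p v = v - fderiv ℝ θ.toEquiv p v := by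
    intro p v
    have h1 : HasFDerivAt (fun p => p - θ.toEquiv p)
      (ContinuousLinearMap.id ℝ (R2 n) - fderiv ℝ θ.toEquiv p) p :=
      (hasFDerivAt_id p).sub (hasFD θ p)
    rw [h1.fderiv]
    rfl
  have hm : Good (fun p => RR S ((fun p => p - θ.toEquiv p) p)) K :=
    { smooth := (RR S).contDiff.comp hYs
      compact := hK
      out := fun q hq => by
        change RR S (q - θ.toEquiv q) = 0
        rw [hθ q hq, sub_self, map_zero]
      inj := fun s hsI q v hv => by
        rw [fderiv_lin hYs, hYd] at hv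
        refine hc q s hsI v ?_
        rw [← hv, map_sub, map_sub]
        module }
  have h1I : (1 : ℝ) ∈ Set.Icc (0 : ℝ) 1 := ⟨zero_le_one, le_rfl⟩
  set m := per hm 1 h1I with hmdef
  have hms : ContDiff ℝ ∞ m := per_smooth _ _ _
  have hmi : ContDiff ℝ ∞ m.symm := per_symm_smooth _ _ _
  have hmp : ∀ p, m p = p + RR S (θ.toEquiv p - p) := by
    intro p
    rw [hmdef, per_apply, one_smul]
    change p - RR S (p - θ.toEquiv p) = _
    rw [← neg_sub (θ.toEquiv p) p, map_neg, sub_neg_eq_add]
  have hmd : ∀ p v, fderiv ℝ m p v = v + RR S (fderiv ℝ θ.toEquiv p v - v) := by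
    intro p v
    rw [hmdef, per_fderiv, fderiv_lin hYs, hYd, one_smul, ← neg_sub (fderiv ℝ θ.toEquiv p v) v,
      map_neg, sub_neg_eq_add]
  let X : R2 n → R2 n := fun q => θ.toEquiv (m.symm q) - m.symm q
  have hXs : ContDiff ℝ ∞ X := (θ.smooth.comp hmi).sub hmi
  have hXm : ∀ p, X (m p) = θ.toEquiv p - p := by
    intro p
    change θ.toEquiv (m.symm (m p)) - m.symm (m p) = _
    rw [Equiv.symm_apply_apply]
  have hX0 : ∀ q, q ∉ K → X q = 0 := by
    intro q hq
    change θ.toEquiv (m.symm q) - m.symm q = 0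
    have e1 : m.symm q = q := per_symm_out hm 1 h1I q hq
    rw [e1, hθ q hq, sub_self]
  have hXd : ∀ p w, fderiv ℝ X (m p) (fderiv ℝ m p w) = fderiv ℝ θ.toEquiv p w - w := by
    intro p w
    have h1 : HasFDerivAt X (fderiv ℝ X (m p)) (m p) :=
      (hXs.contDiffAt.differentiableAt (by norm_num)).hasFDerivAt
    have h2 : HasFDerivAt m (fderiv ℝ m p) p :=
      (hms.contDiffAt.differentiableAt (by norm_num)).hasFDerivAt
    have h3 := h1.comp p h2
    have h4 : (X ∘ m : R2 n → R2 n) = fun p => θ.toEquiv p - p := by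
      funext x
      exact hXm x
    rw [h4] at h3
    have h5 := h3.unique ((hasFD θ p).sub (hasFDerivAt_id p))
    exact DFunLike.congr_fun h5 w
  have hsur : ∀ p u, ∃ u', fderiv ℝ m p u' = u := by
    intro p u
    have hu := inv_left hms hmi (m p) u
    rw [Equiv.symm_apply_apply] at hu
    exact ⟨_, hu⟩
  have hXsp : IsSp X := by
    intro q u v
    obtain ⟨p, rfl⟩ := m.surjective q
    obtain ⟨u', rfl⟩ := hsur p u
    obtain ⟨v', rfl⟩ := hsur p v
    rw [hXd, hXd, hmd, hmd]
    have e := θ.symplectic p u' v'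
    have e2 := RR_sp hS (fderiv ℝ θ.toEquiv p u' - u') (fderiv ℝ θ.toEquiv p v' - v')
    have e3 : omega (fderiv ℝ θ.toEquiv p u' - u') (fderiv ℝ θ.toEquiv p v' - v') =
        omega (fderiv ℝ θ.toEquiv p u') (fderiv ℝ θ.toEquiv p v')
        - omega (fderiv ℝ θ.toEquiv p u') v' - omega u' (fderiv ℝ θ.toEquiv p v')
        + omega u' v' := by
      simp only [omega_sub_left, omega_sub_right]
      ring
    rw [omega_add_right, omega_add_left]
    have e4 : omega (fderiv ℝ θ.toEquiv p u' - u') v' =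
      omega (fderiv ℝ θ.toEquiv p u') v' - omega u' v' := omega_sub_left _ _ _
    have e5 : omega u' (fderiv ℝ θ.toEquiv p v' - v') =
      omega u' (fderiv ℝ θ.toEquiv p v') - omega u' v' := omega_sub_right _ _ _
    rw [e4, e5]
    linear_combination e2 + e3 + e
  have hgood : Good (fun q => RR S (X q)) K :=
    { smooth := (RR S).contDiff.comp hXs
      compact := hK
      out := fun q hq => by rw [hX0 q hq, map_zero]
      inj := fun s hsI q v hv => by
        rw [fderiv_lin hXs] at hv
        obtain ⟨p, rfl⟩ := m.surjective q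
        obtain ⟨v', rfl⟩ := hsur p v
        rw [hXd, hmd] at hv
        have h1 : v' = 0 := by
          refine hc p (1 - s) ⟨by linarith [hsI.2], by linarith [hsI.1]⟩ v' ?_
          rw [← hv]
          module
        rw [h1, map_zero] }
  refine ⟨X, ⟨hS, hXs, hXsp, hK, hX0, hgood⟩, m, ?_, hmi, hXm, ?_⟩
  · intro p
    rw [hmp, hSdef, RR_apply]
    simp only [zero_apply, add_zero]
    module
  · intro p w
    rw [← hXd, hmd, hSdef, RR_apply]
    simp only [zero_apply, add_zero]
    congr 1
    module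

/-- the differentials of `φ` and `ψ` are never opposite -/
def NeverOpp (φ ψ : SympCt n) : Prop :=
  ∀ x v, v ≠ 0 → ∀ c : ℝ, 0 < c →
    fderiv ℝ φ.toEquiv x v ≠ -(c • fderiv ℝ ψ.toEquiv x v)

/-- a reformulation -/
theorem neverOpp_iff {φ ψ : SympCt n} : NeverOpp φ ψ ↔
    ∀ x v, v ≠ 0 → ∀ r ∈ Set.Icc (0 : ℝ) 1,
      (1 - r) • fderiv ℝ ψ.toEquiv x v + r • fderiv ℝ φ.toEquiv x v ≠ 0 := by
  constructor
  · intro h x v hv r hr h1
    rcases hr.1.eq_or_lt with h0 | h0
    · rw [← h0] at h1
      simp only [sub_zero, one_smul, zero_smul, add_zero] at h1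
      exact fderiv_ne_zero ψ x hv h1
    rcases hr.2.eq_or_lt with h2 | h2
    · rw [h2] at h1
      simp only [sub_self, one_smul, zero_smul, zero_add] at h1
      exact fderiv_ne_zero φ x hv h1
    · refine h x v hv ((1 - r) / r) (div_pos (by linarith) h0) ?_
      have h3 : r • fderiv ℝ φ.toEquiv x v = -((1 - r) • fderiv ℝ ψ.toEquiv x v) :=
        eq_neg_of_add_eq_zero_right h1
      have h4 : fderiv ℝ φ.toEquiv x v = r⁻¹ • (r • fderiv ℝ φ.toEquiv x v) := by
        rw [smul_smul, inv_mul_cancel₀ h0.ne', one_smul]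
      rw [h3, smul_neg, smul_smul] at h4
      rw [div_eq_inv_mul]
      exact h4
  · intro h x v hv c hc h1
    refine h x v hv (1 / (1 + c)) ⟨by positivity, by
      rw [div_le_one (by positivity)]
      linarith⟩ ?_
    rw [h1]
    have h2 : (1 - 1 / (1 + c)) = c / (1 + c) := by
      field_simp
      ring
    rw [h2]
    have h3 : (c / (1 + c)) • fderiv ℝ ψ.toEquiv x v +
        (1 / (1 + c)) • -(c • fderiv ℝ ψ.toEquiv x v) =
        (c / (1 + c) - (1 / (1 + c)) * c) • fderiv ℝ ψ.toEquiv x v := by module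
    rw [h3]
    have h4 : c / (1 + c) - (1 / (1 + c)) * c = 0 := by
      field_simp
      ring
    rw [h4, zero_smul]

theorem NeverOpp.crit {φ ψ : SympCt n} (h : NeverOpp φ ψ) :
    ∀ p, ∀ s ∈ Set.Icc (0 : ℝ) 1, ∀ v, v + s • RR (0 : R2 n →L[ℝ] R2 n)
      (fderiv ℝ (comp φ (inv ψ)).toEquiv p v - v) = 0 → v = 0 := by
  intro p s hs v hv
  obtain ⟨x, rfl⟩ := ψ.toEquiv.surjective p
  have e1 : HasFDerivAt φ.toEquiv (fderiv ℝ φ.toEquiv (ψ.toEquiv.symm (ψ.toEquiv x)))
      (ψ.toEquiv.symm (ψ.toEquiv x)) := hasFD φ _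
  have e2 : HasFDerivAt ψ.toEquiv.symm (fderiv ℝ ψ.toEquiv.symm (ψ.toEquiv x))
      (ψ.toEquiv x) :=
    (ψ.smooth_symm.contDiffAt.differentiableAt (by norm_num)).hasFDerivAt
  have e3 := e1.comp (ψ.toEquiv x) e2
  have e4 : (((comp φ (inv ψ)).toEquiv : R2 n ≃ R2 n) : R2 n → R2 n) =
    φ.toEquiv ∘ ψ.toEquiv.symm := rfl
  rw [e4, e3.fderiv, ContinuousLinearMap.comp_apply] at hv
  have e5 := inv_left ψ.smooth ψ.smooth_symm (ψ.toEquiv x) v
  rw [Equiv.symm_apply_apply] at e5 hv
  set w := fderiv ℝ ψ.toEquiv.symm (ψ.toEquiv x) v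
  by_contra hne
  have hw : w ≠ 0 := by
    intro hw
    rw [hw, map_zero] at e5
    exact hne e5.symm
  refine neverOpp_iff.1 h x w hw (s / 2) ⟨by linarith [hs.1], by linarith [hs.2]⟩ ?_
  rw [RR_apply] at hv
  simp only [zero_apply, add_zero] at hv
  rw [e5, ← hv]
  module

/-- the combination `ν_s` -/
noncomputable def nu (f g : P → SympCt n) (s : ℝ) (p : P) (x : R2 n) : R2 n :=
  (1 / 2 + s) • (g p).toEquiv x + (1 / 2 - s) • (f p).toEquiv x

/-- **The homotopy between two families which are never opposite.** -/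
theorem exists_homotopy {f g : P → SympCt n} (hf : JS f) (hg : JS g) {K : Set (R2 n)}
    (hK : IsCompact K) (hfK : ∀ p, f p ∈ supportedIn K) (hgK : ∀ p, g p ∈ supportedIn K)
    (hn : ∀ p, NeverOpp (f p) (g p)) :
    ∃ H : ℝ × P → SympCt n, JS H ∧ (∀ z, H z ∈ supportedIn K) ∧ (∀ p, H (0, p) = g p) ∧
      (∀ p, H (1, p) = f p) ∧
      (∀ t p x, (H (t, p)).toEquiv (((g p).toEquiv.symm) (nu f g (ta t / 2) p x)) =
        nu f g (-(ta t / 2)) p x) ∧
      (∀ t p, Function.Surjective fun x => ((g p).toEquiv.symm) (nu f g (ta t / 2) p x)) ∧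
      (∀ t p, NeverOpp (H (t, p)) (g p)) := by
  choose X hCD m hm hmi hXm hXd using fun p : P =>
    exists_X K hK (comp (f p) (inv (g p))) (comp_supp (hfK p) (inv_supp (hgK p))) (hn p).crit
  have hθ : ∀ p x, (comp (f p) (inv (g p))).toEquiv ((g p).toEquiv x) = (f p).toEquiv x := by
    intro p x
    change (f p).toEquiv ((g p).toEquiv.symm ((g p).toEquiv x)) = _
    rw [Equiv.symm_apply_apply]
  have hmg : ∀ p x, m p ((g p).toEquiv x) =
      (1 / 2 : ℝ) • ((g p).toEquiv x + (f p).toEquiv x) := by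
    intro p x
    rw [hm, hθ]
  have hXg : ∀ p x, X p (m p ((g p).toEquiv x)) = (f p).toEquiv x - (g p).toEquiv x := by
    intro p x
    rw [hXm, hθ]
  have hP : ∀ t p x, per (hCD p).good (ta t) (ta_mem t) (m p ((g p).toEquiv x)) =
      nu f g (ta t / 2) p x := by
    intro t p x
    rw [per_apply, hXg, hmg, RR_apply]
    simp only [nu, zero_apply, add_zero]
    module
  have hP' : ∀ t p x, per (hCD p).goodQ (ta t) (ta_mem t) (m p ((g p).toEquiv x)) =
      nu f g (-(ta t / 2)) p x := by
    intro t p x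
    rw [per_apply, RQ_apply, hXg, hmg, RR_apply]
    simp only [nu, zero_apply, add_zero]
    module
  let e : ℝ × P → R2 n ≃ R2 n := fun z =>
    (g z.2).toEquiv.trans ((m z.2).trans (per (hCD z.2).good (ta z.1) (ta_mem z.1)))
  have he : ∀ z x, e z x = nu f g (ta z.1 / 2) z.2 x := fun z x => hP z.1 z.2 x
  have hsp : Continuous (fun z : ℝ × P => ta z.1 / 2) :=
    (ta_smooth.continuous.comp continuous_fst).div_const 2
  have hf' : ∀ k, JC k (R2 n) (fun (z : ℝ × P) x => (f z.2).toEquiv x) := fun k =>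
    (hf k).param continuous_snd
  have hg' : ∀ k, JC k (R2 n) (fun (z : ℝ × P) x => (g z.2).toEquiv x) := fun k =>
    (hg k).param continuous_snd
  have hJe : ∀ k, JC k (R2 n) (fun z x => e z x) := by
    intro k
    have : (fun (z : ℝ × P) x => e z x) = fun (z : ℝ × P) x =>
        (1 / 2 + ta z.1 / 2) • (g z.2).toEquiv x + (1 / 2 - ta z.1 / 2) • (f z.2).toEquiv x := by
      funext z x
      exact he z x
    rw [this]
    exact ((hg' k).smulP (continuous_const.add hsp)).add
      ((hf' k).smulP (continuous_const.sub hsp))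
  have hJe' : ∀ k, JC k (R2 n) (fun (z : ℝ × P) x => nu f g (-(ta z.1 / 2)) z.2 x) := by
    intro k
    exact ((hg' k).smulP (continuous_const.add hsp.neg)).add
      ((hf' k).smulP (continuous_const.sub hsp.neg))
  have he0 : ∀ z x, x ∉ K → e z x = x := by
    intro z x hx
    rw [he]
    simp only [nu]
    rw [hfK z.2 x hx, hgK z.2 x hx]
    module
  have hJs : ∀ k, JC k (R2 n) (fun z x => (e z).symm x) := by
    refine JC.symm hJe (fun z => ?_) (cont_symm hK he0 (hJe 0))
    have h1 : ContDiff ℝ ∞ (e z).symm :=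
      (g z.2).smooth_symm.comp ((hmi z.2).comp
        (per_symm_smooth (hCD z.2).good (ta z.1) (ta_mem z.1)))
    exact h1.differentiable (by norm_num)
  let H : ℝ × P → SympCt n := fun z => comp (cay (hCD z.2) z.1) (g z.2)
  have hH : ∀ z x, (H z).toEquiv x =
      nu f g (-(ta z.1 / 2)) z.2 ((e z).symm ((g z.2).toEquiv x)) := by
    intro z x
    change per (hCD z.2).goodQ (ta z.1) (ta_mem z.1)
      ((per (hCD z.2).good (ta z.1) (ta_mem z.1)).symm ((g z.2).toEquiv x)) = _
    rw [← hP']
    congr 1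
    rw [Equiv.symm_apply_eq]
    exact ((e z).apply_symm_apply _).symm
  refine ⟨H, ?_, ?_, ?_, ?_, ?_, ?_, ?_⟩
  · intro k
    have : (fun (z : ℝ × P) x => (H z).toEquiv x) = fun (z : ℝ × P) x =>
        nu f g (-(ta z.1 / 2)) z.2 ((e z).symm ((g z.2).toEquiv x)) := by
      funext z x
      exact hH z x
    rw [this]
    exact JC.comp (hJe' k) (JC.comp (hJs k) (hg' k))
  · intro z
    exact comp_supp (cay_supp _ _) (hgK z.2)
  · intro p
    refine SympCt.ext' fun x => ?_
    rw [hH]
    have h1 : ∀ y, nu f g (-(ta (0, p).1 / 2)) (0, p).2 y = e (0, p) y := by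
      intro y
      rw [he]
      simp [ta_zero]
    rw [h1, Equiv.apply_symm_apply]
  · intro p
    refine SympCt.ext' fun x => ?_
    rw [hH]
    have h1 : (e (1, p)).symm ((g p).toEquiv x) = x := by
      rw [Equiv.symm_apply_eq, he]
      simp only [nu, ta_one]
      norm_num
    rw [h1]
    simp only [nu, ta_one]
    norm_num
  · intro t p x
    rw [hH]
    have h1 : (e (t, p)).symm ((g p).toEquiv ((g p).toEquiv.symm
        (nu f g (ta t / 2) p x))) = x := by
      rw [Equiv.apply_symm_apply, Equiv.symm_apply_eq, he]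
    rw [h1]
  · intro t p
    have h1 : (fun x => ((g p).toEquiv.symm) (nu f g (ta t / 2) p x)) =
        (g p).toEquiv.symm ∘ e (t, p) := by
      funext x
      rw [Function.comp_apply, he]
    rw [h1]
    exact (g p).toEquiv.symm.surjective.comp (e (t, p)).surjective
  · intro t p
    rw [neverOpp_iff]
    intro x v hv r hr h1
    change (1 - r) • _ + r • fderiv ℝ (comp (cay (hCD p) t) (g p)).toEquiv x v = 0 at h1
    rw [comp_fderiv] at h1
    set y := (g p).toEquiv x with hy
    set w := fderiv ℝ (g p).toEquiv x v with hw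
    have hw0 : w ≠ 0 := fderiv_ne_zero (g p) x hv
    -- the differential of the Cayley transform
    set A := per (hCD p).good (ta t) (ta_mem t) with hA
    set B := per (hCD p).goodQ (ta t) (ta_mem t) with hB
    have hAs : ContDiff ℝ ∞ A := per_smooth _ _ _
    have hAi : ContDiff ℝ ∞ A.symm := per_symm_smooth _ _ _
    have hBs : ContDiff ℝ ∞ B := per_smooth _ _ _
    have h2 : fderiv ℝ (cay (hCD p) t).toEquiv y w =
        fderiv ℝ B (A.symm y) (fderiv ℝ A.symm y w) := by
      have h3 : HasFDerivAt B (fderiv ℝ B (A.symm y)) (A.symm y) :=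
        (hBs.contDiffAt.differentiableAt (by norm_num)).hasFDerivAt
      have h4 : HasFDerivAt A.symm (fderiv ℝ A.symm y) y :=
        (hAi.contDiffAt.differentiableAt (by norm_num)).hasFDerivAt
      have h5 := h3.comp y h4
      have h6 : (((cay (hCD p) t).toEquiv : R2 n ≃ R2 n) : R2 n → R2 n) = B ∘ A.symm := rfl
      rw [h6, h5.fderiv]
      rfl
    have h3 := inv_left hAs hAi y w
    rw [h2, ← h3] at h1
    have h7 : fderiv ℝ A.symm y (fderiv ℝ A (A.symm y) (fderiv ℝ A.symm y w)) =
        fderiv ℝ A.symm y w := by rw [h3]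
    rw [h7] at h1
    set u := fderiv ℝ A.symm y w with hu
    have hu0 : u ≠ 0 := by
      intro h
      rw [h, map_zero] at h3
      exact hw0 h3.symm
    rw [hA, hB, per_fderiv, per_fderiv, fderiv_lin (hCD p).smooth, fderiv_lin (hCD p).smooth,
      RQ_apply, RR_apply] at h1
    simp only [zero_apply, add_zero] at h1
    set a := fderiv ℝ (X p) (A.symm y) u with ha
    have h8 : u + ((2 * r - 1) * (ta t / 2)) • a = 0 := by
      rw [← h1]
      module
    rcases le_total r (1 / 2) with h9 | h9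
    · refine hu0 ((hCD p).good.inj ((1 - 2 * r) * ta t)
        ⟨mul_nonneg (by linarith) (ta_mem t).1, by nlinarith [hr.1, (ta_mem t).1, (ta_mem t).2]⟩
        (A.symm y) u ?_)
      rw [fderiv_lin (hCD p).smooth, RR_apply]
      simp only [zero_apply, add_zero]
      rw [← ha, ← h8]
      module
    · refine hu0 ((hCD p).goodQ.inj ((2 * r - 1) * ta t)
        ⟨mul_nonneg (by linarith) (ta_mem t).1, by nlinarith [hr.2, (ta_mem t).1, (ta_mem t).2]⟩
        (A.symm y) u ?_)
      rw [fderiv_lin (hCD p).smooth, RQ_apply, RR_apply]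
      simp only [zero_apply, add_zero]
      rw [← ha, ← h8]
      module

end Pool.Agent.W5h83.HG
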