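import Pool.Agent.W5h83.HG.Fam

/-!
# Compact sets of compactly supported symplectomorphisms have a common compact support
-/

set_option autoImplicit false
set_option maxHeartbeats 400000

open scoped ContDiff Topology NNReal

namespace Pool.Agent.W5h83.HG

open Pool.Agent.W71.EC

variable {n : ℕ}

theorem deriv_zero_injective : Function.Injective (deriv 0 : SympCt n → _) := by
  intro φ ψ h
  refine SympCt.ext' fun x => ?_
  have h1 : iteratedFDeriv ℝ 0 φ.toEquiv x = iteratedFDeriv ℝ 0 ψ.toEquiv x :=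
    DFunLike.congr_fun h x
  have h2 := congrArg (fun T => T 0) h1
  simpa using h2

instance t2 (n : ℕ) : T2Space (SympCt n) :=
  T2Space.of_injective_continuous deriv_zero_injective (continuous_deriv 0)

theorem exists_ball (φ : SympCt n) : ∃ m : ℕ, φ ∈ supportedIn (Metric.closedBall (0 : R2 n) m) := by
  obtain ⟨K, hK, hφ⟩ := φ.compact_support
  obtain ⟨r, hr⟩ := hK.isBounded.subset_closedBall (0 : R2 n)
  obtain ⟨m, hm⟩ := exists_nat_ge r
  exact ⟨m, fun p hp => hφ p fun hpK => hp (Metric.closedBall_subset_closedBall hm (hr hpK))⟩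

theorem supp_mono {K L : Set (R2 n)} (h : K ⊆ L) {φ : SympCt n} (hφ : φ ∈ supportedIn K) :
    φ ∈ supportedIn L := fun p hp => hφ p fun hpK => hp (h hpK)

/-- compact sets have a common compact support -/
theorem supp_unif {S : Set (SympCt n)} (hS : IsCompact S) :
    ∃ m : ℕ, ∀ φ ∈ S, φ ∈ supportedIn (Metric.closedBall (0 : R2 n) m) := by
  by_contra hcon
  push Not at hcon
  choose φ hφS hφ using hcon
  let T : ℕ → Set (SympCt n) := fun j => {χ | ∃ m, j ≤ m ∧ χ = φ m}
  have hTcl : ∀ j, IsClosed (T j) := by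
    intro j
    rw [← isOpen_compl_iff]
    refine isOpen_iSup_iff.2 fun C => ?_
    refine isOpen_coinduced.2 ?_
    let _ : TopologicalSpace (supportedIn (C : Set (R2 n))) := smoothTopology (C : Set (R2 n))
    obtain ⟨r, hr⟩ := C.isCompact.isBounded.subset_closedBall (0 : R2 n)
    obtain ⟨N, hN⟩ := exists_nat_ge r
    have hCN : (C : Set (R2 n)) ⊆ Metric.closedBall (0 : R2 n) N :=
      hr.trans (Metric.closedBall_subset_closedBall hN)
    have h1 : (Subtype.val : supportedIn (C : Set (R2 n)) → SympCt n) ⁻¹' (T j)ᶜ =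
        (Subtype.val : supportedIn (C : Set (R2 n)) → SympCt n) ⁻¹'
          (φ '' {m | j ≤ m ∧ m < N})ᶜ := by
      ext χ
      simp only [Set.mem_preimage, Set.mem_compl_iff, not_iff_not]
      constructor
      · rintro ⟨m, hm, hχ⟩
        refine ⟨m, ⟨hm, ?_⟩, hχ.symm⟩
        by_contra hmN
        refine hφ m (supp_mono (hCN.trans (Metric.closedBall_subset_closedBall ?_)) (hχ ▸ χ.2))
        exact_mod_cast not_lt.1 hmN
      · rintro ⟨m, ⟨hm, _⟩, hχ⟩
        exact ⟨m, hm, hχ.symm⟩
    rw [h1]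
    have h2 : (φ '' {m | j ≤ m ∧ m < N}).Finite :=
      Set.Finite.image _ ((Set.finite_lt_nat N).subset fun m hm => hm.2)
    have h3 : Continuous (Subtype.val : supportedIn (C : Set (R2 n)) → SympCt n) :=
      continuous_val _ C.isCompact
    exact h2.isClosed.isOpen_compl.preimage h3
  have hTS : T 0 ⊆ S := by
    rintro _ ⟨m, _, rfl⟩
    exact hφS m
  obtain ⟨χ, hχ⟩ := IsCompact.nonempty_iInter_of_sequence_nonempty_isCompact_isClosed T
    (fun i => fun χ ⟨m, hm, h⟩ => ⟨m, by omega, h⟩) (fun i => ⟨φ i, i, le_rfl, rfl⟩)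
    (hS.of_isClosed_subset (hTcl 0) hTS) hTcl
  obtain ⟨N, hN⟩ := exists_ball χ
  obtain ⟨m, hm, hχm⟩ := Set.mem_iInter.1 hχ N
  refine hφ m (supp_mono (Metric.closedBall_subset_closedBall ?_) (hχm ▸ hN))
  exact_mod_cast hm

section

variable {P : Type*} [TopologicalSpace P]

/-- if the two families agree at a parameter then the homotopy is constant there -/
theorem eq_of_eq {f g : P → SympCt n} {t : ℝ} {p : P} {χ : SympCt n}
    (hfg : f p = g p)
    (h1 : ∀ x, χ.toEquiv (((g p).toEquiv.symm) (nu f g (ta t / 2) p x)) =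
        nu f g (-(ta t / 2)) p x) : χ = g p := by
  refine SympCt.ext' fun x => ?_
  have h2 := h1 x
  have h3 : ∀ s, nu f g s p x = (g p).toEquiv x := by
    intro s
    simp only [nu]
    rw [hfg]
    module
  rw [h3, h3, Equiv.symm_apply_apply] at h2
  exact h2

/-- **Never opposite families are homotopic**, relative to the set where they agree. -/
theorem homotopicRel_of_supp (f g : C(P, SympCt n)) {K : Set (R2 n)} (hK : IsCompact K)
    (hfK : ∀ p, f p ∈ supportedIn K) (hgK : ∀ p, g p ∈ supportedIn K)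
    (hn : ∀ p, NeverOpp (f p) (g p)) (A : Set P) (hA : ∀ p ∈ A, f p = g p) :
    f.HomotopicRel g A := by
  obtain ⟨H, hJ, hs, h0, h1, hH, _, _⟩ := exists_homotopy (JS.of_continuous f.continuous)
    (JS.of_continuous g.continuous) hK hfK hgK hn
  have hc : Continuous H := hJ.continuous K hK hs
  have hc' : Continuous (fun z : unitInterval × P => H ((z.1 : ℝ), z.2)) :=
    hc.comp ((continuous_subtype_val.comp continuous_fst).prodMk continuous_snd)
  refine ContinuousMap.HomotopicRel.symm ⟨⟨⟨⟨_, hc'⟩, ?_, ?_⟩, ?_⟩⟩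
  · intro p
    change H (((0 : unitInterval) : ℝ), p) = g p
    rw [Set.Icc.coe_zero, h0]
  · intro p
    change H (((1 : unitInterval) : ℝ), p) = f p
    rw [Set.Icc.coe_one, h1]
  · intro t p hp
    exact eq_of_eq (hA p hp) (fun x => hH t p x)

end

end Pool.Agent.W5h83.HG
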