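import Pool.Agent.W5h83.HG.Supp

/-!
# The canonical isotopy between two symplectomorphisms which are never opposite
-/

set_option autoImplicit false
set_option maxHeartbeats 400000

open scoped ContDiff Topology NNReal

namespace Pool.Agent.W5h83.HG

open Pool.Agent.W71.EC

variable {n : ℕ}

/-- the combination of two elements -/
noncomputable def mu (φ ψ : SympCt n) (s : ℝ) (x : R2 n) : R2 n :=
  (1 / 2 + s) • ψ.toEquiv x + (1 / 2 - s) • φ.toEquiv x

theorem exists_iso (φ ψ : SympCt n) (h : NeverOpp φ ψ) : ∃ H : ℝ → SympCt n,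
    H 0 = ψ ∧ H 1 = φ ∧
    (∀ t x, (H t).toEquiv (ψ.toEquiv.symm (mu φ ψ (ta t / 2) x)) = mu φ ψ (-(ta t / 2)) x) ∧
    (∀ t, Function.Surjective fun x => ψ.toEquiv.symm (mu φ ψ (ta t / 2) x)) ∧
    (∀ t, NeverOpp (H t) ψ) := by
  obtain ⟨K, hK, hφ⟩ := φ.compact_support
  obtain ⟨L, hL, hψ⟩ := ψ.compact_support
  have hc : ∀ χ : SympCt n, Continuous (fun _ : Unit => χ) := fun χ => continuous_const
  obtain ⟨H, _, _, h0, h1, hH, hs, hn⟩ := exists_homotopy (P := Unit)
    (f := fun _ => φ) (g := fun _ => ψ) (JS.of_continuous (hc φ)) (JS.of_continuous (hc ψ))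
    (hK.union hL) (fun _ => supp_mono Set.subset_union_left hφ)
    (fun _ => supp_mono Set.subset_union_right hψ) (fun _ => h)
  exact ⟨fun t => H (t, ()), h0 (), h1 (), fun t x => hH t () x, fun t => hs t (),
    fun t => hn t ()⟩

/-- the canonical isotopy from `ψ` to `φ` -/
noncomputable def iso (φ ψ : SympCt n) (h : NeverOpp φ ψ) : ℝ → SympCt n :=
  (exists_iso φ ψ h).choose

theorem iso_zero (φ ψ : SympCt n) (h : NeverOpp φ ψ) : iso φ ψ h 0 = ψ :=
  (exists_iso φ ψ h).choose_spec.1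

theorem iso_one (φ ψ : SympCt n) (h : NeverOpp φ ψ) : iso φ ψ h 1 = φ :=
  (exists_iso φ ψ h).choose_spec.2.1

theorem iso_eq (φ ψ : SympCt n) (h : NeverOpp φ ψ) (t : ℝ) (x : R2 n) :
    (iso φ ψ h t).toEquiv (ψ.toEquiv.symm (mu φ ψ (ta t / 2) x)) = mu φ ψ (-(ta t / 2)) x :=
  (exists_iso φ ψ h).choose_spec.2.2.1 t x

theorem iso_surj (φ ψ : SympCt n) (h : NeverOpp φ ψ) (t : ℝ) :
    Function.Surjective fun x => ψ.toEquiv.symm (mu φ ψ (ta t / 2) x) :=
  (exists_iso φ ψ h).choose_spec.2.2.2.1 t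

theorem iso_neverOpp (φ ψ : SympCt n) (h : NeverOpp φ ψ) (t : ℝ) : NeverOpp (iso φ ψ h t) ψ :=
  (exists_iso φ ψ h).choose_spec.2.2.2.2 t

theorem iso_unique (φ ψ : SympCt n) (h : NeverOpp φ ψ) (t : ℝ) (χ : SympCt n)
    (hχ : ∀ x, χ.toEquiv (ψ.toEquiv.symm (mu φ ψ (ta t / 2) x)) = mu φ ψ (-(ta t / 2)) x) :
    χ = iso φ ψ h t := by
  refine SympCt.ext' fun y => ?_
  obtain ⟨x, rfl⟩ := iso_surj φ ψ h t y
  exact (hχ x).trans (iso_eq φ ψ h t x).symm

theorem iso_self (ψ : SympCt n) (h : NeverOpp ψ ψ) (t : ℝ) : iso ψ ψ h t = ψ := by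
  symm
  refine iso_unique ψ ψ h t ψ fun x => ?_
  have h3 : ∀ s, mu ψ ψ s x = ψ.toEquiv x := by
    intro s
    simp only [mu]
    module
  rw [h3, h3, Equiv.symm_apply_apply]

theorem iso_of_eq {φ ψ : SympCt n} (h : NeverOpp φ ψ) (he : φ = ψ) (t : ℝ) :
    iso φ ψ h t = ψ := by
  subst he
  exact iso_self _ _ _

section

variable {P : Type*} [TopologicalSpace P]

theorem iso_continuous_of_supp {f g : P → SympCt n} (hf : Continuous f) (hg : Continuous g)
    {K : Set (R2 n)} (hK : IsCompact K) (hfK : ∀ p, f p ∈ supportedIn K)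
    (hgK : ∀ p, g p ∈ supportedIn K) (hn : ∀ p, NeverOpp (f p) (g p)) :
    Continuous (fun z : ℝ × P => iso (f z.2) (g z.2) (hn z.2) z.1) := by
  obtain ⟨H, hJ, hs, _, _, hH, _, _⟩ := exists_homotopy (JS.of_continuous hf)
    (JS.of_continuous hg) hK hfK hgK hn
  have hc : Continuous H := hJ.continuous K hK hs
  have h1 : (fun z : ℝ × P => iso (f z.2) (g z.2) (hn z.2) z.1) = H := by
    funext z
    exact (iso_unique _ _ (hn z.2) z.1 (H z) fun x => hH z.1 z.2 x).symm
  rw [h1]
  exact hc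

theorem iso_continuous [WeaklyLocallyCompactSpace P] {f g : P → SympCt n} (hf : Continuous f)
    (hg : Continuous g) (hn : ∀ p, NeverOpp (f p) (g p)) :
    Continuous (fun z : ℝ × P => iso (f z.2) (g z.2) (hn z.2) z.1) := by
  rw [continuous_iff_continuousAt]
  rintro ⟨t, p⟩
  obtain ⟨U, hU, hpU⟩ := exists_compact_mem_nhds p
  obtain ⟨m, hm⟩ := supp_unif (hU.image hf)
  obtain ⟨m', hm'⟩ := supp_unif (hU.image hg)
  have h1 : Continuous (fun z : ℝ × U => iso (f z.2.1) (g z.2.1) (hn z.2.1) z.1) :=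
    iso_continuous_of_supp (f := fun p : U => f p.1) (g := fun p : U => g p.1)
      (hf.comp continuous_subtype_val) (hg.comp continuous_subtype_val)
      ((isCompact_closedBall (0 : R2 n) m).union (isCompact_closedBall (0 : R2 n) m'))
      (fun p => supp_mono Set.subset_union_left (hm _ ⟨p.1, p.2, rfl⟩))
      (fun p => supp_mono Set.subset_union_right (hm' _ ⟨p.1, p.2, rfl⟩)) (fun p => hn p.1)
  have h2 : ContinuousOn (fun z : ℝ × P => iso (f z.2) (g z.2) (hn z.2) z.1)
      (Set.univ ×ˢ U) := by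
    rw [continuousOn_iff_continuous_restrict]
    have h3 : Continuous (fun z : (Set.univ ×ˢ U : Set (ℝ × P)) =>
        ((z.1.1, ⟨z.1.2, z.2.2⟩) : ℝ × U)) :=
      (continuous_fst.comp continuous_subtype_val).prodMk
        ((continuous_snd.comp continuous_subtype_val).subtype_mk _)
    exact h1.comp h3
  exact h2.continuousAt (prod_mem_nhds Filter.univ_mem hpU)

/-- **Never opposite families are homotopic**, relative to the set where they agree. -/
theorem homotopicRel_of_neverOpp [WeaklyLocallyCompactSpace P] (f g : C(P, SympCt n))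
    (hn : ∀ p, NeverOpp (f p) (g p)) (A : Set P) (hA : ∀ p ∈ A, f p = g p) :
    f.HomotopicRel g A := by
  have hc := iso_continuous f.continuous g.continuous hn
  have hc' : Continuous (fun z : unitInterval × P =>
      iso (f z.2) (g z.2) (hn z.2) (z.1 : ℝ)) :=
    hc.comp ((continuous_subtype_val.comp continuous_fst).prodMk continuous_snd)
  refine ContinuousMap.HomotopicRel.symm ⟨⟨⟨⟨_, hc'⟩, ?_, ?_⟩, ?_⟩⟩
  · intro p
    change iso (f p) (g p) (hn p) ((0 : unitInterval) : ℝ) = g p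
    rw [Set.Icc.coe_zero, iso_zero]
  · intro p
    change iso (f p) (g p) (hn p) ((1 : unitInterval) : ℝ) = f p
    rw [Set.Icc.coe_one, iso_one]
  · intro t p hp
    exact iso_of_eq (hn p) (hA p hp) _

end

section open_sets

/-- continuity on open subsets for the direct limit topology -/
theorem continuous_on_open {Z : Type*} [TopologicalSpace Z] {U : Set (SympCt n)} (hU : IsOpen U)
    (h : U → Z)
    (hc : ∀ C : TopologicalSpace.Compacts (R2 n),
      letI : TopologicalSpace (supportedIn (C : Set (R2 n))) := smoothTopology (C : Set (R2 n))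
      Continuous (fun φ : {φ : supportedIn (C : Set (R2 n)) // φ.1 ∈ U} => h ⟨φ.1.1, φ.2⟩)) :
    Continuous h := by
  rw [continuous_def]
  intro W hW
  have h1 : IsOpen ((Subtype.val : U → SympCt n) '' (h ⁻¹' W)) := by
    refine isOpen_iSup_iff.2 fun C => ?_
    refine isOpen_coinduced.2 ?_
    let _ : TopologicalSpace (supportedIn (C : Set (R2 n))) := smoothTopology (C : Set (R2 n))
    have h2 : IsOpen {φ : supportedIn (C : Set (R2 n)) | φ.1 ∈ U} :=
      hU.preimage (continuous_val _ C.isCompact)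
    have h3 := h2.isOpenMap_subtype_val _ (hW.preimage (hc C))
    convert h3 using 1
    ext φ
    constructor
    · rintro ⟨⟨χ, hχ⟩, hw, h4⟩
      have h5 : χ = φ.1 := h4
      subst h5
      exact ⟨⟨φ, hχ⟩, hw, rfl⟩
    · rintro ⟨⟨χ, hχ⟩, hw, rfl⟩
      exact ⟨⟨χ.1, hχ⟩, hw, rfl⟩
  have h2 := h1.preimage (continuous_subtype_val (p := fun φ => φ ∈ U))
  rwa [Set.preimage_image_eq _ Subtype.val_injective] at h2

theorem NeverOpp.symm {φ ψ : SympCt n} (h : NeverOpp φ ψ) : NeverOpp ψ φ :=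
  NoOpp.symm h

theorem NeverOpp.refl (φ : SympCt n) : NeverOpp φ φ :=
  noOpp_of_mem (self_mem_Nb φ)

theorem isOpen_neverOpp (ψ : SympCt n) : IsOpen {φ : SympCt n | NeverOpp φ ψ} := by
  refine isOpen_iSup_iff.2 fun C => ?_
  refine isOpen_coinduced.2 ?_
  obtain ⟨L, hL, hψ⟩ := ψ.compact_support
  let _ : TopologicalSpace (supportedIn (C : Set (R2 n))) := smoothTopology (C : Set (R2 n))
  have hK : IsCompact ((C : Set (R2 n)) ∪ L) := C.isCompact.union hL
  have h1 : Continuous (fun φ : supportedIn (C : Set (R2 n)) => φ.1) :=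
    continuous_val _ C.isCompact
  have h2 : Continuous (fun φ : supportedIn (C : Set (R2 n)) => dmap φ.1) := by
    have h3 : (fun φ : supportedIn (C : Set (R2 n)) => dmap φ.1) = fun φ =>
        (⟨continuousMultilinearCurryFin1 ℝ (R2 n) (R2 n),
          (continuousMultilinearCurryFin1 ℝ (R2 n) (R2 n)).continuous⟩ :
          C((R2 n) [×1]→L[ℝ] (R2 n), R2 n →L[ℝ] R2 n)).comp (W71.EC.deriv 1 φ.1) := by
      funext φ
      exact dmap_eq φ.1
    rw [h3]
    exact (ContinuousMap.continuous_postcomp _).comp ((continuous_deriv 1).comp h1)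
  rw [isOpen_iff_mem_nhds]
  intro φ hφ
  have hφ' := neverOpp_iff.1 (show NeverOpp φ.1 ψ from hφ)
  have hQ : IsCompact (((C : Set (R2 n)) ∪ L) ×ˢ (Metric.sphere (0 : R2 n) 1 ×ˢ
      Set.Icc (0 : ℝ) 1)) := hK.prod ((isCompact_sphere _ _).prod isCompact_Icc)
  have h3 : Continuous (fun z : supportedIn (C : Set (R2 n)) × (R2 n × (R2 n × ℝ)) =>
      (1 - z.2.2.2) • dmap ψ z.2.1 z.2.2.1 + z.2.2.2 • dmap z.1.1 z.2.1 z.2.2.1) := by
    have h4 : Continuous (fun z : supportedIn (C : Set (R2 n)) × (R2 n × (R2 n × ℝ)) =>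
        dmap z.1.1 z.2.1 z.2.2.1) :=
      ((h2.comp continuous_fst).eval (continuous_fst.comp continuous_snd)).clm_apply
        (continuous_fst.comp (continuous_snd.comp continuous_snd))
    have h5 : Continuous (fun z : supportedIn (C : Set (R2 n)) × (R2 n × (R2 n × ℝ)) =>
        dmap ψ z.2.1 z.2.2.1) :=
      ((dmap ψ).continuous.comp (continuous_fst.comp continuous_snd)).clm_apply
        (continuous_fst.comp (continuous_snd.comp continuous_snd))
    have h6 : Continuous (fun z : supportedIn (C : Set (R2 n)) × (R2 n × (R2 n × ℝ)) =>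
        z.2.2.2) := continuous_snd.comp (continuous_snd.comp continuous_snd)
    exact ((continuous_const.sub h6).smul h5).add (h6.smul h4)
  have h4 := hQ.eventually_forall_of_forall_eventually (x₀ := φ)
    (P := fun (χ : supportedIn (C : Set (R2 n))) (z : R2 n × (R2 n × ℝ)) =>
      (1 - z.2.2) • dmap ψ z.1 z.2.1 + z.2.2 • dmap χ.1 z.1 z.2.1 ≠ 0)
    (by
      rintro ⟨x, v, r⟩ ⟨_, hv, hr⟩
      refine (isOpen_ne_fun h3 continuous_const).mem_nhds ?_
      refine hφ' x v ?_ r hr
      intro h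
      have hv' : v ∈ Metric.sphere (0 : R2 n) 1 := hv
      rw [h] at hv'
      simp at hv')
  filter_upwards [h4] with χ hχ
  change NeverOpp χ.1 ψ
  rw [neverOpp_iff]
  intro x v hv r hr
  by_cases hx : x ∈ (C : Set (R2 n)) ∪ L
  · have hv0 : 0 < ‖v‖ := norm_pos_iff.2 hv
    have h5 := hχ (x, ‖v‖⁻¹ • v, r) ⟨hx, by
      change ‖v‖⁻¹ • v ∈ Metric.sphere (0 : R2 n) 1
      rw [mem_sphere_zero_iff_norm, norm_smul, norm_inv, norm_norm, inv_mul_cancel₀ hv0.ne'],
      hr⟩
    intro h6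
    apply h5
    change (1 - r) • fderiv ℝ ψ.toEquiv x (‖v‖⁻¹ • v) +
      r • fderiv ℝ χ.1.toEquiv x (‖v‖⁻¹ • v) = 0
    rw [map_smul, map_smul, smul_comm (1 - r), smul_comm r, ← smul_add, h6, smul_zero]
  · have e1 : ∀ θ : SympCt n, θ ∈ supportedIn ((C : Set (R2 n)) ∪ L) →
        fderiv ℝ θ.toEquiv x v = v := by
      intro θ hθ
      have h5 : fderiv ℝ θ.toEquiv x = fderiv ℝ id x := by
        refine Filter.EventuallyEq.fderiv_eq ?_
        filter_upwards [hK.isClosed.isOpen_compl.mem_nhds hx] with y hy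
        exact hθ y hy
      rw [h5, fderiv_id]
      rfl
    rw [e1 ψ (supp_mono Set.subset_union_right hψ), e1 χ.1 (supp_mono Set.subset_union_left χ.2)]
    have h5 : (1 - r) • v + r • v = v := by module
    rwa [h5]

theorem contractible_neverOpp (ψ : SympCt n) :
    ContractibleSpace {φ : SympCt n // NeverOpp φ ψ} := by
  rw [contractible_iff_id_nullhomotopic]
  let U : Set (SympCt n) := {φ | NeverOpp φ ψ}
  have hc1 : ∀ φ : U, Continuous (fun t : unitInterval => iso φ.1 ψ φ.2 (t : ℝ)) := by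
    intro φ
    have h1 := iso_continuous (P := Unit) (f := fun _ => φ.1) (g := fun _ => ψ)
      continuous_const continuous_const (fun _ => φ.2)
    exact h1.comp (continuous_subtype_val.prodMk (continuous_const (y := ())))
  let Φ : U → C(unitInterval, U) := fun φ =>
    ⟨fun t => ⟨iso φ.1 ψ φ.2 (t : ℝ), iso_neverOpp φ.1 ψ φ.2 t⟩, (hc1 φ).subtype_mk _⟩
  have hΦ : Continuous Φ := by
    refine continuous_on_open (isOpen_neverOpp ψ) Φ fun C => ?_
    let _ : TopologicalSpace (supportedIn (C : Set (R2 n))) := smoothTopology (C : Set (R2 n))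
    obtain ⟨L, hL, hψ⟩ := ψ.compact_support
    refine ContinuousMap.continuous_of_continuous_uncurry _ ?_
    refine Continuous.subtype_mk ?_ _
    have h1 := iso_continuous_of_supp
      (P := {φ : supportedIn (C : Set (R2 n)) // φ.1 ∈ {φ : SympCt n | NeverOpp φ ψ}})
      (f := fun φ => φ.1.1) (g := fun _ => ψ)
      ((continuous_val _ C.isCompact).comp continuous_subtype_val) continuous_const
      (C.isCompact.union hL) (fun φ => supp_mono Set.subset_union_left φ.1.2)
      (fun _ => supp_mono Set.subset_union_right hψ) (fun φ => φ.2)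
    exact h1.comp ((continuous_subtype_val.comp continuous_snd).prodMk continuous_fst)
  let Φ' : C(U, C(unitInterval, U)) := ⟨Φ, hΦ⟩
  have hF : Continuous (fun z : unitInterval × U => Φ z.2 z.1) :=
    (ContinuousMap.continuous_uncurry_of_continuous Φ').comp continuous_swap
  refine ⟨⟨ψ, NeverOpp.refl ψ⟩, ContinuousMap.Homotopic.symm ⟨⟨⟨_, hF⟩, ?_, ?_⟩⟩⟩
  · intro φ
    refine Subtype.ext ?_
    change iso φ.1 ψ φ.2 ((0 : unitInterval) : ℝ) = ψ
    rw [Set.Icc.coe_zero, iso_zero]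
  · intro φ
    refine Subtype.ext ?_
    change iso φ.1 ψ φ.2 ((1 : unitInterval) : ℝ) = φ.1
    rw [Set.Icc.coe_one, iso_one]

end open_sets

end Pool.Agent.W5h83.HG
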