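import Mathlib

/-!
# Families of maps which are jointly `C^k` in the second variable
-/

set_option autoImplicit false
set_option maxHeartbeats 400000

open scoped ContDiff Topology

namespace Pool.Agent.W5h83.HG

universe v

variable {P : Type*} [TopologicalSpace P] {E : Type v} [NormedAddCommGroup E] [NormedSpace ℝ E]

/-- The maps `f p` are `C^k` and their derivatives up to order `k` are jointly continuous. -/
def JC : (k : ℕ) → (F : Type v) → [NormedAddCommGroup F] → [NormedSpace ℝ F] → (P → E → F) → Prop
  | 0, _, _, _, f => Continuous (Function.uncurry f)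
  | k + 1, F, _, _, f => Continuous (Function.uncurry f) ∧ (∀ p x, DifferentiableAt ℝ (f p) x) ∧
      JC k (E →L[ℝ] F) fun p x => fderiv ℝ (f p) x

variable {F G H : Type v} [NormedAddCommGroup F] [NormedSpace ℝ F] [NormedAddCommGroup G]
  [NormedSpace ℝ G] [NormedAddCommGroup H] [NormedSpace ℝ H]

theorem JC.cont {k : ℕ} {f : P → E → F} (h : JC k F f) : Continuous (Function.uncurry f) := by
  cases k with
  | zero => exact h
  | succ k => exact h.1

theorem JC.pred {k : ℕ} {F : Type v} [NormedAddCommGroup F] [NormedSpace ℝ F] {f : P → E → F}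
    (h : JC (k + 1) F f) : JC k F f := by
  induction k generalizing F with
  | zero => exact h.1
  | succ k ih => exact ⟨h.1, h.2.1, ih h.2.2⟩

theorem JC.param {Q : Type*} [TopologicalSpace Q] {a : Q → P} (ha : Continuous a) {k : ℕ}
    {F : Type v} [NormedAddCommGroup F] [NormedSpace ℝ F] {f : P → E → F}
    (h : JC k F f) : JC k F (fun q => f (a q)) := by
  induction k generalizing F with
  | zero => exact h.comp ((ha.comp continuous_fst).prodMk continuous_snd)
  | succ k ih =>
    exact ⟨h.1.comp ((ha.comp continuous_fst).prodMk continuous_snd), fun q x => h.2.1 _ _,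
      ih h.2.2⟩

theorem JC.constX {a : P → F} (ha : Continuous a) (k : ℕ) : JC k F (fun p (_ : E) => a p) := by
  induction k generalizing F with
  | zero => exact ha.comp continuous_fst
  | succ k ih =>
    refine ⟨ha.comp continuous_fst, fun p x => differentiableAt_const _, ?_⟩
    have : (fun p (x : E) => fderiv ℝ (fun _ : E => a p) x) = fun _ _ => 0 := by
      funext p x
      simp
    rw [this]
    exact ih (a := fun _ => (0 : E →L[ℝ] F)) continuous_const

theorem JC.ofSmooth {φ : E → F} (hφ : ContDiff ℝ ∞ φ) (k : ℕ) : JC k F (fun _ : P => φ) := by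
  induction k generalizing F with
  | zero => exact hφ.continuous.comp continuous_snd
  | succ k ih =>
    refine ⟨hφ.continuous.comp continuous_snd, fun p x =>
      hφ.contDiffAt.differentiableAt (by norm_num), ?_⟩
    exact ih (φ := fderiv ℝ φ) (hφ.fderiv_right (by norm_num))

theorem JC.add {k : ℕ} {F : Type v} [NormedAddCommGroup F] [NormedSpace ℝ F] {f g : P → E → F}
    (hf : JC k F f) (hg : JC k F g) : JC k F (fun p x => f p x + g p x) := by
  induction k generalizing F with
  | zero => exact Continuous.add hf hg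
  | succ k ih =>
    refine ⟨hf.1.add hg.1, fun p x => (hf.2.1 p x).add (hg.2.1 p x), ?_⟩
    have : (fun p x => fderiv ℝ (fun x => f p x + g p x) x) =
        fun p x => fderiv ℝ (f p) x + fderiv ℝ (g p) x := by
      funext p x
      exact fderiv_add (hf.2.1 p x) (hg.2.1 p x)
    rw [this]
    exact ih hf.2.2 hg.2.2

theorem JC.bilin {k : ℕ} {F G H : Type v} [NormedAddCommGroup F] [NormedSpace ℝ F]
    [NormedAddCommGroup G] [NormedSpace ℝ G] [NormedAddCommGroup H] [NormedSpace ℝ H]
    (B : F →L[ℝ] G →L[ℝ] H) {f : P → E → F} {g : P → E → G}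
    (hf : JC k F f) (hg : JC k G g) : JC k H (fun p x => B (f p x) (g p x)) := by
  induction k generalizing F G H with
  | zero => exact (B.continuous.comp hf).clm_apply hg
  | succ k ih =>
    refine ⟨(B.continuous.comp hf.1).clm_apply hg.1, fun p x =>
      (B.hasFDerivAt_of_bilinear (hf.2.1 p x).hasFDerivAt
        (hg.2.1 p x).hasFDerivAt).differentiableAt, ?_⟩
    have : (fun p x => fderiv ℝ (fun x => B (f p x) (g p x)) x) =
        fun p x => B.precompR E (f p x) (fderiv ℝ (g p) x) +
          B.precompL E (fderiv ℝ (f p) x) (g p x) := by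
      funext p x
      exact (B.hasFDerivAt_of_bilinear (hf.2.1 p x).hasFDerivAt
        (hg.2.1 p x).hasFDerivAt).fderiv
    rw [this]
    exact (ih (B.precompR E) hf.pred hg.2.2).add (ih (B.precompL E) hf.2.2 hg.pred)

theorem JC.comp {k : ℕ} {F : Type v} [NormedAddCommGroup F] [NormedSpace ℝ F]
    {f : P → E → F} {g : P → E → E}
    (hf : JC k F f) (hg : JC k E g) : JC k F (fun p x => f p (g p x)) := by
  induction k generalizing F with
  | zero => exact Continuous.comp (g := Function.uncurry f) hf (continuous_fst.prodMk hg)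
  | succ k ih =>
    refine ⟨hf.1.comp (continuous_fst.prodMk hg.1), fun p x =>
      (hf.2.1 p (g p x)).comp x (hg.2.1 p x), ?_⟩
    have : (fun p x => fderiv ℝ (fun x => f p (g p x)) x) =
        fun p x => ContinuousLinearMap.compL ℝ E E F (fderiv ℝ (f p) (g p x))
          (fderiv ℝ (g p) x) := by
      funext p x
      exact fderiv_comp x (hf.2.1 p (g p x)) (hg.2.1 p x)
    rw [this]
    exact JC.bilin _ (ih (f := fun p x => fderiv ℝ (f p) x) hf.2.2 hg.pred) hg.2.2

theorem JC.smulP {a : P → ℝ} (ha : Continuous a) {k : ℕ} {F : Type v} [NormedAddCommGroup F]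
    [NormedSpace ℝ F] {f : P → E → F}
    (hf : JC k F f) : JC k F (fun p x => a p • f p x) := by
  induction k generalizing F with
  | zero => exact (ha.comp continuous_fst).smul hf
  | succ k ih =>
    refine ⟨(ha.comp continuous_fst).smul hf.1, fun p x => (hf.2.1 p x).const_smul _, ?_⟩
    have : (fun p x => fderiv ℝ (fun x => a p • f p x) x) =
        fun p x => a p • fderiv ℝ (f p) x := by
      funext p x
      exact fderiv_const_smul (hf.2.1 p x) (a p)
    rw [this]
    exact ih hf.2.2

theorem JC.neg {k : ℕ} {f : P → E → F} (hf : JC k F f) : JC k F (fun p x => - f p x) := by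
  have h := JC.smulP (a := fun _ : P => (-1 : ℝ)) continuous_const hf
  simpa using h

theorem JC.inverse [CompleteSpace E] {k : ℕ} {f : P → E → (E →L[ℝ] E)}
    (hf : JC k (E →L[ℝ] E) f) (hu : ∀ p x, IsUnit (f p x)) :
    JC k (E →L[ℝ] E) (fun p x => Ring.inverse (f p x)) := by
  have hc : Continuous (Function.uncurry fun p x => Ring.inverse (f p x)) := by
    rw [continuous_iff_continuousAt]
    rintro ⟨p, x⟩
    obtain ⟨u, hu'⟩ := hu p x
    have h1 : ContinuousAt (Ring.inverse : (E →L[ℝ] E) → (E →L[ℝ] E)) (f p x) := by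
      rw [← hu']
      exact NormedRing.inverse_continuousAt u
    have h2 : ContinuousAt (Function.uncurry f) (p, x) := hf.cont.continuousAt
    exact ContinuousAt.comp (f := Function.uncurry f) (x := (p, x)) h1 h2
  induction k with
  | zero => exact hc
  | succ k ih =>
    have hd : ∀ p x, HasFDerivAt (fun x => Ring.inverse (f p x))
        (-((ContinuousLinearMap.mul ℝ (E →L[ℝ] E)).precompL E
          ((ContinuousLinearMap.mul ℝ (E →L[ℝ] E)).precompR E (Ring.inverse (f p x))
            (fderiv ℝ (f p) x)) (Ring.inverse (f p x)))) x := by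
      intro p x
      obtain ⟨u, hu'⟩ := hu p x
      have h1 : HasFDerivAt (Ring.inverse : (E →L[ℝ] E) → (E →L[ℝ] E))
          (-ContinuousLinearMap.mulLeftRight ℝ (E →L[ℝ] E) ↑u⁻¹ ↑u⁻¹) (f p x) := by
        rw [← hu']
        exact hasFDerivAt_ringInverse u
      have h2 := h1.comp x (hf.2.1 p x).hasFDerivAt
      have h3 : (-((ContinuousLinearMap.mul ℝ (E →L[ℝ] E)).precompL E
          ((ContinuousLinearMap.mul ℝ (E →L[ℝ] E)).precompR E (Ring.inverse (f p x))
            (fderiv ℝ (f p) x)) (Ring.inverse (f p x)))) =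
          (-ContinuousLinearMap.mulLeftRight ℝ (E →L[ℝ] E) ↑u⁻¹ ↑u⁻¹).comp
            (fderiv ℝ (f p) x) := by
        refine ContinuousLinearMap.ext fun v => ?_
        rw [← hu', Ring.inverse_unit]
        rfl
      rw [h3]
      exact h2
    refine ⟨hc, fun p x => (hd p x).differentiableAt, ?_⟩
    have : (fun p x => fderiv ℝ (fun x => Ring.inverse (f p x)) x) = fun p x =>
        -((ContinuousLinearMap.mul ℝ (E →L[ℝ] E)).precompL E
          ((ContinuousLinearMap.mul ℝ (E →L[ℝ] E)).precompR E (Ring.inverse (f p x))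
            (fderiv ℝ (f p) x)) (Ring.inverse (f p x))) := by
      funext p x
      exact (hd p x).fderiv
    rw [this]
    have hI := ih hf.pred
    have h1 := JC.bilin (F := E →L[ℝ] E) (G := E →L[ℝ] (E →L[ℝ] E))
      (H := E →L[ℝ] (E →L[ℝ] E))
      ((ContinuousLinearMap.mul ℝ (E →L[ℝ] E)).precompR E) hI hf.2.2
    have h2 := JC.bilin (F := E →L[ℝ] (E →L[ℝ] E)) (G := E →L[ℝ] E)
      (H := E →L[ℝ] (E →L[ℝ] E))
      ((ContinuousLinearMap.mul ℝ (E →L[ℝ] E)).precompL E) h1 hI
    exact JC.neg h2

theorem fderiv_symm {e : E ≃ E} (h1 : Differentiable ℝ e) (h2 : Differentiable ℝ e.symm) (y : E) :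
    IsUnit (fderiv ℝ e (e.symm y)) ∧ fderiv ℝ e.symm y = Ring.inverse (fderiv ℝ e (e.symm y)) := by
  have a1 : (fderiv ℝ e (e.symm y)).comp (fderiv ℝ e.symm y) = ContinuousLinearMap.id ℝ E := by
    have h3 : HasFDerivAt (e ∘ e.symm : E → E)
        ((fderiv ℝ e (e.symm y)).comp (fderiv ℝ e.symm y)) y :=
      HasFDerivAt.comp y (h1 (e.symm y)).hasFDerivAt (h2 y).hasFDerivAt
    have h4 : (e ∘ e.symm : E → E) = id := by
      funext x
      simp
    rw [h4] at h3
    exact h3.unique (hasFDerivAt_id y)
  have a2 : (fderiv ℝ e.symm y).comp (fderiv ℝ e (e.symm y)) = ContinuousLinearMap.id ℝ E := by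
    have h6 : HasFDerivAt e.symm (fderiv ℝ e.symm y) (e (e.symm y)) := by
      rw [Equiv.apply_symm_apply]
      exact (h2 y).hasFDerivAt
    have h3 : HasFDerivAt (e.symm ∘ e : E → E)
        ((fderiv ℝ e.symm y).comp (fderiv ℝ e (e.symm y))) (e.symm y) :=
      HasFDerivAt.comp (e.symm y) h6 (h1 (e.symm y)).hasFDerivAt
    have h4 : (e.symm ∘ e : E → E) = id := by
      funext x
      simp
    rw [h4] at h3
    exact h3.unique (hasFDerivAt_id (e.symm y))
  let u : (E →L[ℝ] E)ˣ := ⟨fderiv ℝ e (e.symm y), fderiv ℝ e.symm y, a1, a2⟩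
  have hu : (u : E →L[ℝ] E) = fderiv ℝ e (e.symm y) := rfl
  refine ⟨⟨u, hu⟩, ?_⟩
  rw [← hu, Ring.inverse_unit]
  rfl

theorem JC.symm [CompleteSpace E] {e : P → E ≃ E} (he : ∀ k, JC k E (fun p x => e p x))
    (hi : ∀ p, Differentiable ℝ (e p).symm)
    (hc : Continuous (Function.uncurry fun p x => (e p).symm x)) (k : ℕ) :
    JC k E (fun p x => (e p).symm x) := by
  have hd : ∀ p, Differentiable ℝ (e p) := fun p x => (he 1).2.1 p x
  induction k with
  | zero => exact hc
  | succ k ih =>
    refine ⟨hc, fun p x => hi p x, ?_⟩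
    have : (fun p x => fderiv ℝ (e p).symm x) =
        fun p x => Ring.inverse (fderiv ℝ (e p) ((e p).symm x)) := by
      funext p x
      exact (fderiv_symm (hd p) (hi p) x).2
    rw [this]
    have h1 : JC k (E →L[ℝ] E) (fun p x => fderiv ℝ (e p) x) := (he (k + 1)).2.2
    exact JC.inverse (h1.comp ih) fun p x => (fderiv_symm (hd p) (hi p) x).1

theorem JC.iter (k : ℕ) {F : Type v} [NormedAddCommGroup F] [NormedSpace ℝ F] {f : P → E → F}
    (h : ∀ k, JC k F f) : Continuous (fun z : P × E => iteratedFDeriv ℝ k (f z.1) z.2) := by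
  induction k generalizing F with
  | zero =>
    have : (fun z : P × E => iteratedFDeriv ℝ 0 (f z.1) z.2) =
        fun z => (continuousMultilinearCurryFin0 ℝ E F).symm (f z.1 z.2) := by
      funext z
      rw [iteratedFDeriv_zero_eq_comp]
      rfl
    rw [this]
    exact (continuousMultilinearCurryFin0 ℝ E F).symm.continuous.comp (h 0)
  | succ k ih =>
    have : (fun z : P × E => iteratedFDeriv ℝ (k + 1) (f z.1) z.2) =
        fun z => (continuousMultilinearCurryRightEquiv' ℝ k E F).symm
          (iteratedFDeriv ℝ k (fun y => fderiv ℝ (f z.1) y) z.2) := by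
      funext z
      rw [iteratedFDeriv_succ_eq_comp_right]
      rfl
    rw [this]
    exact (continuousMultilinearCurryRightEquiv' ℝ k E F).symm.continuous.comp
      (ih (f := fun p y => fderiv ℝ (f p) y) fun k => (h (k + 1)).2.2)

theorem JC.ofIter (k : ℕ) {F : Type v} [NormedAddCommGroup F] [NormedSpace ℝ F] {f : P → E → F}
    (hs : ∀ p, ContDiff ℝ ∞ (f p))
    (h : ∀ k, Continuous (fun z : P × E => iteratedFDeriv ℝ k (f z.1) z.2)) : JC k F f := by
  have h0 : Continuous (Function.uncurry f) := by
    have : Function.uncurry f = fun z : P × E => (continuousMultilinearCurryFin0 ℝ E F)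
        (iteratedFDeriv ℝ 0 (f z.1) z.2) := by
      funext z
      rw [iteratedFDeriv_zero_eq_comp]
      simp
      rfl
    rw [this]
    exact (continuousMultilinearCurryFin0 ℝ E F).continuous.comp (h 0)
  induction k generalizing F with
  | zero => exact h0
  | succ k ih =>
    refine ⟨h0, fun p x => (hs p).contDiffAt.differentiableAt (by norm_num), ?_⟩
    have h2 : ∀ k, Continuous (fun z : P × E =>
        iteratedFDeriv ℝ k (fun y => fderiv ℝ (f z.1) y) z.2) := by
      intro k
      have : (fun z : P × E => iteratedFDeriv ℝ k (fun y => fderiv ℝ (f z.1) y) z.2) =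
          fun z => (continuousMultilinearCurryRightEquiv' ℝ k E F)
            (iteratedFDeriv ℝ (k + 1) (f z.1) z.2) := by
        funext z
        rw [iteratedFDeriv_succ_eq_comp_right]
        exact ((continuousMultilinearCurryRightEquiv' ℝ k E F).apply_symm_apply _).symm
      rw [this]
      exact (continuousMultilinearCurryRightEquiv' ℝ k E F).continuous.comp (h (k + 1))
    refine ih (f := fun p y => fderiv ℝ (f p) y) (fun p => (hs p).fderiv_right (by norm_num)) h2 ?_
    have h3 : Continuous (fun z : P × E => (continuousMultilinearCurryFin0 ℝ E (E →L[ℝ] F))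
        (iteratedFDeriv ℝ 0 (fun y => fderiv ℝ (f z.1) y) z.2)) :=
      (continuousMultilinearCurryFin0 ℝ E _).continuous.comp (h2 0)
    have : (Function.uncurry fun p y => fderiv ℝ (f p) y) =
        fun z : P × E => (continuousMultilinearCurryFin0 ℝ E (E →L[ℝ] F))
          (iteratedFDeriv ℝ 0 (fun y => fderiv ℝ (f z.1) y) z.2) := by
      funext z
      rw [iteratedFDeriv_zero_eq_comp]
      simp
      rfl
    rw [this]
    exact h3

end Pool.Agent.W5h83.HG
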