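import Pool.Agent.W5h83.HG.Iso

/-!
# Homotopy classes of maps into the group: chains and countability
-/

set_option autoImplicit false
set_option maxHeartbeats 400000

open scoped ContDiff Topology NNReal

namespace Pool.Agent.W5h83.HG

open Pool.Agent.W71.EC

variable {n : ℕ}

theorem fderiv_out_supp {K : Set (R2 n)} (hK : IsCompact K) {θ : SympCt n}
    (hθ : θ ∈ supportedIn K) {x : R2 n} (hx : x ∉ K) (v : R2 n) :
    fderiv ℝ θ.toEquiv x v = v := by
  have h5 : fderiv ℝ θ.toEquiv x = fderiv ℝ id x := by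
    refine Filter.EventuallyEq.fderiv_eq ?_
    filter_upwards [hK.isClosed.isOpen_compl.mem_nhds hx] with y hy
    exact hθ y hy
  rw [h5, fderiv_id]
  rfl

/-- being never opposite is an open condition on families over a compact space -/
theorem eventually_neverOpp {T C : Type*} [TopologicalSpace T] [TopologicalSpace C]
    [CompactSpace C] {t₀ : T} (f : T → C → SympCt n) (g : C → SympCt n) {K : Set (R2 n)}
    (hK : IsCompact K) (hfK : ∀ t c, f t c ∈ supportedIn K) (hgK : ∀ c, g c ∈ supportedIn K)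
    (hcf : Continuous fun z : T × (C × R2 n) => fderiv ℝ (f z.1 z.2.1).toEquiv z.2.2)
    (hcg : Continuous fun z : C × R2 n => fderiv ℝ (g z.1).toEquiv z.2)
    (h0 : ∀ c, NeverOpp (f t₀ c) (g c)) : ∀ᶠ t in 𝓝 t₀, ∀ c, NeverOpp (f t c) (g c) := by
  have hQ : IsCompact ((Set.univ : Set C) ×ˢ (K ×ˢ (Metric.sphere (0 : R2 n) 1 ×ˢ
      Set.Icc (0 : ℝ) 1))) :=
    isCompact_univ.prod (hK.prod ((isCompact_sphere _ _).prod isCompact_Icc))
  have h3 : Continuous (fun z : T × (C × (R2 n × (R2 n × ℝ))) =>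
      (1 - z.2.2.2.2) • fderiv ℝ (g z.2.1).toEquiv z.2.2.1 z.2.2.2.1 +
        z.2.2.2.2 • fderiv ℝ (f z.1 z.2.1).toEquiv z.2.2.1 z.2.2.2.1) := by
    have e2 : Continuous (fun z : T × (C × (R2 n × (R2 n × ℝ))) => z.2.1) :=
      continuous_fst.comp continuous_snd
    have e3 : Continuous (fun z : T × (C × (R2 n × (R2 n × ℝ))) => z.2.2.1) :=
      continuous_fst.comp (continuous_snd.comp continuous_snd)
    have e4 : Continuous (fun z : T × (C × (R2 n × (R2 n × ℝ))) => z.2.2.2.1) :=
      continuous_fst.comp (continuous_snd.comp (continuous_snd.comp continuous_snd))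
    have e5 : Continuous (fun z : T × (C × (R2 n × (R2 n × ℝ))) => z.2.2.2.2) :=
      continuous_snd.comp (continuous_snd.comp (continuous_snd.comp continuous_snd))
    have h4 : Continuous (fun z : T × (C × (R2 n × (R2 n × ℝ))) =>
        fderiv ℝ (f z.1 z.2.1).toEquiv z.2.2.1 z.2.2.2.1) :=
      (hcf.comp (continuous_fst.prodMk (e2.prodMk e3))).clm_apply e4
    have h5 : Continuous (fun z : T × (C × (R2 n × (R2 n × ℝ))) =>
        fderiv ℝ (g z.2.1).toEquiv z.2.2.1 z.2.2.2.1) :=
      (hcg.comp (e2.prodMk e3)).clm_apply e4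
    exact ((continuous_const.sub e5).smul h5).add (e5.smul h4)
  have h4 := hQ.eventually_forall_of_forall_eventually (x₀ := t₀)
    (P := fun (t : T) (z : C × (R2 n × (R2 n × ℝ))) =>
      (1 - z.2.2.2) • fderiv ℝ (g z.1).toEquiv z.2.1 z.2.2.1 +
        z.2.2.2 • fderiv ℝ (f t z.1).toEquiv z.2.1 z.2.2.1 ≠ 0)
    (by
      rintro ⟨c, x, v, r⟩ ⟨_, _, hv, hr⟩
      refine (isOpen_ne_fun h3 continuous_const).mem_nhds ?_
      refine neverOpp_iff.1 (h0 c) x v ?_ r hr
      intro h
      have hv' : v ∈ Metric.sphere (0 : R2 n) 1 := hv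
      rw [h] at hv'
      simp at hv')
  filter_upwards [h4] with t ht c
  rw [neverOpp_iff]
  intro x v hv r hr
  by_cases hx : x ∈ K
  · have hv0 : 0 < ‖v‖ := norm_pos_iff.2 hv
    have h5 := ht (c, x, ‖v‖⁻¹ • v, r) ⟨trivial, hx, by
      change ‖v‖⁻¹ • v ∈ Metric.sphere (0 : R2 n) 1
      rw [mem_sphere_zero_iff_norm, norm_smul, norm_inv, norm_norm, inv_mul_cancel₀ hv0.ne'],
      hr⟩
    intro h6
    apply h5
    change (1 - r) • fderiv ℝ (g c).toEquiv x (‖v‖⁻¹ • v) +
      r • fderiv ℝ (f t c).toEquiv x (‖v‖⁻¹ • v) = 0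
    rw [map_smul, map_smul, smul_comm (1 - r), smul_comm r, ← smul_add, h6, smul_zero]
  · rw [fderiv_out_supp hK (hgK c) hx, fderiv_out_supp hK (hfK t c) hx]
    have h5 : (1 - r) • v + r • v = v := by module
    rwa [h5]

section

variable {C : Type*} [TopologicalSpace C]

/-- equal on `A` and never opposite -/
def Step (A : Set C) (f g : C(C, SympCt n)) : Prop :=
  (∀ c ∈ A, f c = g c) ∧ ∀ c, NeverOpp (f c) (g c)

theorem Step.symm {A : Set C} {f g : C(C, SympCt n)} (h : Step A f g) : Step A g f :=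
  ⟨fun c hc => (h.1 c hc).symm, fun c => (h.2 c).symm⟩

theorem Step.homotopicRel [CompactSpace C] {A : Set C} {f g : C(C, SympCt n)} (h : Step A f g) :
    f.HomotopicRel g A := homotopicRel_of_neverOpp f g h.2 A h.1

theorem continuous_fderiv_family {P : Type*} [TopologicalSpace P] {f : P → SympCt n}
    (hf : Continuous f) : Continuous fun z : P × R2 n => fderiv ℝ (f z.1).toEquiv z.2 :=
  (JS.of_continuous hf 1).2.2

/-- **Homotopy classes are the classes of chains.** -/
theorem homotopicRel_iff [CompactSpace C] (A : Set C) (f g : C(C, SympCt n)) :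
    f.HomotopicRel g A ↔ Relation.ReflTransGen (Step A) f g := by
  constructor
  · rintro ⟨F⟩
    obtain ⟨m, hm⟩ := supp_unif (isCompact_range F.continuous)
    let G : unitInterval → C(C, SympCt n) := fun t => F.toHomotopy.curry t
    have hG : ∀ t c, G t c = F (t, c) := fun _ _ => rfl
    have hGA : ∀ s t, ∀ c ∈ A, G s c = G t c := by
      intro s t c hc
      rw [hG, hG, F.eq_fst s hc, F.eq_fst t hc]
    have hsupp : ∀ t c, G t c ∈ supportedIn (Metric.closedBall (0 : R2 n) m) := fun t c =>
      hm _ ⟨(t, c), rfl⟩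
    have key : ∀ t, ∀ᶠ s in 𝓝 t, Step A (G s) (G t) := by
      intro t
      have h1 := eventually_neverOpp (t₀ := t) (fun s c => G s c) (fun c => G t c)
        (isCompact_closedBall (0 : R2 n) m) hsupp (hsupp t)
        ((continuous_fderiv_family (P := unitInterval × C) F.continuous).comp
          ((continuous_fst.prodMk (continuous_fst.comp continuous_snd)).prodMk
            (continuous_snd.comp continuous_snd)))
        (continuous_fderiv_family (P := C) (G t).continuous)
        (fun c => NeverOpp.refl _)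
      filter_upwards [h1] with s hs
      exact ⟨hGA s t, hs⟩
    let S : Set unitInterval := {t | Relation.ReflTransGen (Step A) f (G t)}
    have hS : IsOpen S := by
      rw [isOpen_iff_mem_nhds]
      intro t ht
      filter_upwards [key t] with s hs
      exact Relation.ReflTransGen.tail ht hs.symm
    have hS' : IsOpen Sᶜ := by
      rw [isOpen_iff_mem_nhds]
      intro t ht
      filter_upwards [key t] with s hs hsS
      exact ht (Relation.ReflTransGen.tail hsS hs)
    have hclopen : IsClopen S := ⟨isOpen_compl_iff.1 hS', hS⟩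
    have h0 : G 0 = f := by
      ext1 c
      exact F.apply_zero c
    have h1 : G 1 = g := by
      ext1 c
      exact F.apply_one c
    have hne : S.Nonempty := ⟨0, by
      change Relation.ReflTransGen (Step A) f (G 0)
      rw [h0]⟩
    have h2 : (1 : unitInterval) ∈ S := by
      rw [hclopen.eq_univ hne]
      trivial
    change Relation.ReflTransGen (Step A) f (G 1) at h2
    rwa [h1] at h2
  · intro h
    induction h with
    | refl => exact ContinuousMap.HomotopicRel.refl f
    | tail _ h1 ih => exact ih.trans h1.homotopicRel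

/-- **Countably many homotopy classes.** -/
theorem countable_classes [CompactSpace C] [T2Space C] [SecondCountableTopology C] (A : Set C)
    (f₀ : C(C, SympCt n)) :
    ∃ S : Set C(C, SympCt n), S.Countable ∧ (∀ h ∈ S, ∀ c ∈ A, h c = f₀ c) ∧
      ∀ f : C(C, SympCt n), (∀ c ∈ A, f c = f₀ c) → ∃ h ∈ S, f.HomotopicRel h A := by
  have main : ∀ m : ℕ, ∃ S : Set C(C, SympCt n), S.Countable ∧ (∀ h ∈ S, ∀ c ∈ A, h c = f₀ c) ∧
      ∀ f : C(C, SympCt n), (∀ c ∈ A, f c = f₀ c) →
        (∀ c, f c ∈ supportedIn (Metric.closedBall (0 : R2 n) m)) →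
        ∃ h ∈ S, f.HomotopicRel h A := by
    intro m
    let M : Type _ := {f : C(C, SympCt n) // (∀ c ∈ A, f c = f₀ c) ∧
      ∀ c, f c ∈ supportedIn (Metric.closedBall (0 : R2 n) m)}
    let D : M → C(C × R2 n, R2 n →L[ℝ] R2 n) := fun f =>
      ⟨fun z => fderiv ℝ (f.1 z.1).toEquiv z.2, continuous_fderiv_family f.1.continuous⟩
    let τ : TopologicalSpace M := TopologicalSpace.induced D ContinuousMap.compactOpen
    have hsc : SecondCountableTopology M :=
      TopologicalSpace.secondCountableTopology_induced _ _ _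
    have hD : Continuous D := continuous_induced_dom
    let V : M → Set M := fun g => {f | ∀ c, NeverOpp (f.1 c) (g.1 c)}
    have hV : ∀ g : M, V g ∈ 𝓝 g := by
      intro g
      exact eventually_neverOpp (T := M) (t₀ := g) (fun f c => f.1 c) (fun c => g.1 c)
        (isCompact_closedBall (0 : R2 n) m) (fun f c => f.2.2 c) (fun c => g.2.2 c)
        ((hD.comp continuous_fst).eval continuous_snd)
        (continuous_fderiv_family g.1.continuous) (fun c => NeverOpp.refl _)
    obtain ⟨S, hS, hcov⟩ := TopologicalSpace.countable_cover_nhds hV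
    refine ⟨Subtype.val '' S, hS.image _, ?_, ?_⟩
    · rintro _ ⟨h, _, rfl⟩
      exact h.2.1
    · intro f hfA hfm
      have h1 : (⟨f, hfA, hfm⟩ : M) ∈ ⋃ x ∈ S, V x := by
        rw [hcov]
        trivial
      simp only [Set.mem_iUnion] at h1
      obtain ⟨g, hg, h2⟩ := h1
      refine ⟨g.1, ⟨g, hg, rfl⟩, ?_⟩
      have h3 : Step A f g.1 := ⟨fun c hc => (hfA c hc).trans (g.2.1 c hc).symm, h2⟩
      exact h3.homotopicRel
  choose S hS hSA h2 using main
  refine ⟨⋃ m, S m, Set.countable_iUnion hS, ?_, ?_⟩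
  · intro h hh
    obtain ⟨m, hm⟩ := Set.mem_iUnion.1 hh
    exact hSA m h hm
  · intro f hf
    obtain ⟨m, hm⟩ := supp_unif (isCompact_range f.continuous)
    obtain ⟨h, hh, h3⟩ := h2 m f hf fun c => hm _ ⟨c, rfl⟩
    exact ⟨h, Set.mem_iUnion.2 ⟨m, hh⟩, h3⟩

/-- **All homotopy groups are countable.** -/
theorem countable_homotopyGroup (k : ℕ) (x : SympCt n) :
    Countable (HomotopyGroup (Fin k) (SympCt n) x) := by
  obtain ⟨S, hS, hSA, h⟩ := countable_classes (Cube.boundary (Fin k))
    (ContinuousMap.const (Fin k → unitInterval) x)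
  have := hS.to_subtype
  have h1 : Function.Surjective (fun s : S =>
      (Quotient.mk _ (⟨s.1, hSA s.1 s.2⟩ : GenLoop (Fin k) (SympCt n) x) :
        HomotopyGroup (Fin k) (SympCt n) x)) := by
    intro c
    obtain ⟨f, rfl⟩ := Quotient.exists_rep c
    obtain ⟨g, hg, h2⟩ := h f.1 f.2
    exact ⟨⟨g, hg⟩, Quotient.sound h2.symm⟩
  exact h1.countable

end

end Pool.Agent.W5h83.HG
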